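import Pool.Agent.N206.CG.Stm2

/-!
Project CG: normalised automorphisms fix the spinal elements of deep levels; last step
-/

set_option autoImplicit false

namespace Pool.Agent.N650.CG

open Pool.Agent.N206.CG

theorem orb_sp {L : Loc} (S : Sys L) (hA : RulesA S) (α : ∀ m, MulAut (S.D m)) (hα : IsNor S α) (b : L.B) (m : ℕ) :
    α (m + 1) (S.sp (m + 1) b) = S.sec m (α m (S.sp m b)) (L.z m) := by
  obtain ⟨h1, h2, h3⟩ := hα
  have h := hA.sec_ap m (α m) (S.sp m b) (L.z m) (S.root_sp m b)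
  rw [h2 m, Equiv.Perm.one_apply, S.sec_sp_z m b, ← h1 m] at h
  exact h.symm

theorem fix_one {L : Loc} (S : Sys L) (hA : RulesA S) (h : S_STAB S) (α : ∀ m, MulAut (S.D m)) (hα : IsNor S α) (b : L.B) :
    ∃ N, ∀ n, N ≤ n → α n (S.sp n b) = S.sp n b := by
  obtain ⟨N, b', hN⟩ := h (fun m => α m (S.sp m b)) (fun m => orb_sp S hA α hα b m)
  obtain ⟨h1, h2, h3⟩ := hα
  have key : ∀ m, N ≤ m → L.rho (m + 1) b = L.rho (m + 1) b' := by
    intro m hm
    obtain ⟨x, hx, -⟩ := L.X_two m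
    have e1 := hA.sec_ap m (α m) (S.sp m b) x (S.root_sp m b)
    have e2 : α m (S.sp m b) = S.sp m b' := hN m hm
    rw [h2 m, Equiv.Perm.one_apply, e2, S.sec_sp_X m b' x hx, S.sec_sp_X m b x hx] at e1
    have e3 := congrArg (S.root (m + 1)) e1
    rw [hA.root_ap (m + 1), h3 m x hx, S.root_rt, S.root_rt] at e3
    simpa using e3.symm
  have hb : b = b' := by
    have h4 : b'⁻¹ * b = 1 := by
      apply L.rho_inj (N + 1)
      intro n hn
      obtain ⟨m, rfl⟩ : ∃ m, n = m + 1 := ⟨n - 1, by omega⟩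
      rw [map_mul, map_inv, key m (by omega)]
      group
    exact (inv_mul_eq_one.1 h4).symm
  refine ⟨N, fun n hn => ?_⟩
  have h5 : α n (S.sp n b) = S.sp n b' := hN n hn
  rw [h5, hb]

theorem t_C1 {L : Loc} (S : Sys L) (hA : RulesA S) (h : S_STAB S) : S_C1 S := by
  classical
  intro α hα
  choose N hN using fix_one S hA h α hα
  obtain ⟨T, hT⟩ := L.B_fg.out
  refine ⟨T.sup N, fun n hn b => ?_⟩
  have hb : b ∈ Subgroup.closure (T : Set L.B) := by rw [hT]; exact Subgroup.mem_top b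
  induction hb using Subgroup.closure_induction with
  | mem x hx => exact hN x n ((Finset.le_sup (f := N) hx).trans hn)
  | one => simp
  | mul x y _ _ hx hy => rw [map_mul, map_mul, hx, hy]
  | inv x _ hx => rw [map_inv, map_inv, hx]

theorem t_C3 {L : Loc} (S : Sys L) (hA : RulesA S) (hB : RulesB S) : S_C3 S := by
  rintro α ⟨h1, h2, h3⟩ ⟨N, hN⟩
  have _ := hA.sg_one
  have hone : ∀ n, N ≤ n → α n = 1 := by
    intro n hn
    refine hB.triv (fun m => {β | N ≤ m ∧ β = α m}) ?_ n (α n) ⟨hn, rfl⟩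
    rintro m β ⟨hm, rfl⟩
    exact ⟨h2 m, fun x => ⟨by omega, hN m hm x⟩⟩
  have hk : ∀ k m, m + k = N → ∃ d, α m = MulAut.conj d := by
    intro k
    induction k with
    | zero =>
      intro m hm
      refine ⟨1, ?_⟩
      rw [hone m (by omega), map_one]
    | succ k ih =>
      intro m hm
      obtain ⟨e, he⟩ := ih (m + 1) (by omega)
      apply hB.inn m (α m)
      · rw [h2 m]
        exact (L.P m).one_mem
      · exact ⟨L.z m, e, by rw [← h1 m]; exact he⟩
  exact hk N 0 (by omega)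

end Pool.Agent.N650.CG
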